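import Mathlib
import Pool.Agent.X130.Nae

set_option autoImplicit false

/-!
# Recognising graphs in which given edge sequences are paths: definitions
-/

namespace Pool.Agent.X130.ER

open Pool.Agent.NPC

/-- Under the labelling `φ` of the elements by unordered pairs of vertices, the sequence `s` is a
simple path: there are pairwise distinct vertices `v_0, …, v_k` with `φ (e_i) = v_{i-1} v_i`. -/
def IsPathSeq {V : Type} (φ : ℕ → Sym2 V) (s : List ℕ) : Prop :=
  ∃ p : List V, p.Nodup ∧ p.length = s.length + 1 ∧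
    ∀ i : ℕ, ∀ h : i < s.length, ∃ a b : V, p[i]? = some a ∧ p[i + 1]? = some b ∧
      φ s[i] = s(a, b)

/-- The instance `(E; S)` has a realisation: a finite simple graph `G` whose edges are labelled
bijectively by the elements of `E`, all members of `S` being simple paths. -/
def Realisable (E : List ℕ) (S : List (List ℕ)) : Prop :=
  ∃ (V : Type) (_ : Finite V) (G : SimpleGraph V) (φ : ℕ → Sym2 V),
    Set.BijOn φ {e | e ∈ E} G.edgeSet ∧ ∀ s ∈ S, IsPathSeq φ s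

/-- An instance: a list `E` without repetitions, and sequences of elements of `E`. -/
def IsInst (E : List ℕ) (S : List (List ℕ)) : Prop := E.Nodup ∧ ∀ s ∈ S, ∀ e ∈ s, e ∈ E

/-- The decision problem: does the instance have a realisation? -/
def EdgePaths (I : List ℕ × List (List ℕ)) : Prop := IsInst I.1 I.2 ∧ Realisable I.1 I.2

theorem isPathSeq3 {V : Type} {φ : ℕ → Sym2 V} {e f g : ℕ} : IsPathSeq φ [e, f, g] ↔
    ∃ a b c d : V, [a, b, c, d].Nodup ∧ φ e = s(a, b) ∧ φ f = s(b, c) ∧ φ g = s(c, d) := by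
  constructor
  · rintro ⟨p, hp, hl, h⟩
    obtain ⟨a, b, c, d, rfl⟩ : ∃ a b c d, p = [a, b, c, d] := by
      match p, hl with
      | [a, b, c, d], _ => exact ⟨a, b, c, d, rfl⟩
    obtain ⟨a0, b0, h1, h2, h3⟩ := h 0 (by simp)
    obtain ⟨a1, b1, h4, h5, h6⟩ := h 1 (by simp)
    obtain ⟨a2, b2, h7, h8, h9⟩ := h 2 (by simp)
    simp only [List.getElem?_cons_zero, List.getElem?_cons_succ, Option.some.injEq, zero_add,
      Nat.reduceAdd] at h1 h2 h4 h5 h7 h8
    subst h1 h2 h4 h5 h7 h8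
    exact ⟨a, b, c, d, hp, h3, h6, h9⟩
  · rintro ⟨a, b, c, d, hp, h1, h2, h3⟩
    refine ⟨[a, b, c, d], hp, rfl, ?_⟩
    intro i hi
    have h : i = 0 ∨ i = 1 ∨ i = 2 := by
      simp only [List.length_cons, List.length_nil] at hi
      omega
    rcases h with rfl | rfl | rfl
    · exact ⟨a, b, rfl, rfl, h1⟩
    · exact ⟨b, c, rfl, rfl, h2⟩
    · exact ⟨c, d, rfl, rfl, h3⟩

/-- a realisation from labels by pairs of numbers -/
theorem realisable_of {E : List ℕ} {S : List (List ℕ)} (M : ℕ) (lab : ℕ → ℕ × ℕ)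
    (h1 : ∀ e ∈ E, (lab e).1 < M ∧ (lab e).2 < M ∧ (lab e).1 ≠ (lab e).2)
    (h2 : ∀ e ∈ E, ∀ e' ∈ E, ((lab e).1 = (lab e').1 ∧ (lab e).2 = (lab e').2) ∨
      ((lab e).1 = (lab e').2 ∧ (lab e).2 = (lab e').1) → e = e')
    (h3 : ∀ s ∈ S, ∃ e f g, s = [e, f, g] ∧ ∃ a b c d : ℕ, a < M ∧ b < M ∧ c < M ∧ d < M ∧
      a ≠ b ∧ a ≠ c ∧ a ≠ d ∧ b ≠ c ∧ b ≠ d ∧ c ≠ d ∧ (lab e = (a, b) ∨ lab e = (b, a)) ∧
      (lab f = (b, c) ∨ lab f = (c, b)) ∧ (lab g = (c, d) ∨ lab g = (d, c))) (hM : 0 < M) :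
    Realisable E S := by
  haveI : NeZero M := ⟨by omega⟩
  let vt : ℕ → Fin M := fun k => Fin.ofNat M k
  have hvt : ∀ a b, a < M → b < M → vt a = vt b → a = b := by
    intro a b ha hb h
    have h' := congrArg Fin.val h
    simp only [vt, Fin.val_ofNat] at h'
    rwa [Nat.mod_eq_of_lt ha, Nat.mod_eq_of_lt hb] at h'
  let φ : ℕ → Sym2 (Fin M) := fun e => s(vt (lab e).1, vt (lab e).2)
  have hinj : Set.InjOn φ {e | e ∈ E} := by
    intro e he e' he' h
    apply h2 e he e' he'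
    have g1 := h1 e he
    have g2 := h1 e' he'
    simp only [φ, Sym2.eq_iff] at h
    rcases h with ⟨h, h'⟩ | ⟨h, h'⟩
    · exact Or.inl ⟨hvt _ _ g1.1 g2.1 h, hvt _ _ g1.2.1 g2.2.1 h'⟩
    · exact Or.inr ⟨hvt _ _ g1.1 g2.2.1 h, hvt _ _ g1.2.1 g2.1 h'⟩
  refine ⟨Fin M, inferInstance, SimpleGraph.fromEdgeSet (φ '' {e | e ∈ E}), φ, ?_, ?_⟩
  · have he : (SimpleGraph.fromEdgeSet (φ '' {e | e ∈ E})).edgeSet = φ '' {e | e ∈ E} := by
      rw [SimpleGraph.edgeSet_fromEdgeSet]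
      ext x
      simp only [Set.mem_diff, Set.mem_image, Set.mem_setOf_eq, and_iff_left_iff_imp]
      rintro ⟨e, he, rfl⟩ hd
      have g1 := h1 e he
      exact g1.2.2 (hvt _ _ g1.1 g1.2.1 (Sym2.mk_isDiag_iff.1 hd))
    rw [he]
    exact hinj.bijOn_image
  · intro s hs
    obtain ⟨e, f, g, rfl, a, b, c, d, ha, hb, hc, hd, n1, n2, n3, n4, n5, n6, h4, h5, h6⟩ := h3 s hs
    rw [isPathSeq3]
    have hs : ∀ (e a b : ℕ), lab e = (a, b) ∨ lab e = (b, a) → φ e = s(vt a, vt b) := by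
      rintro e a b (h | h)
      · simp only [φ, h]
      · simp only [φ, h]
        exact Sym2.eq_swap
    refine ⟨vt a, vt b, vt c, vt d, ?_, hs _ _ _ h4, hs _ _ _ h5, hs _ _ _ h6⟩
    have m1 := fun h => n1 (hvt _ _ ha hb h)
    have m2 := fun h => n2 (hvt _ _ ha hc h)
    have m3 := fun h => n3 (hvt _ _ ha hd h)
    have m4 := fun h => n4 (hvt _ _ hb hc h)
    have m5 := fun h => n5 (hvt _ _ hb hd h)
    have m6 := fun h => n6 (hvt _ _ hc hd h)
    simp only [List.nodup_cons, List.mem_cons, List.not_mem_nil, or_false, not_false_eq_true,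
      List.nodup_nil, and_true]
    tauto

end Pool.Agent.X130.ER
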