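import Mathlib
import Pool.Agent.X130.ER.Defs

set_option autoImplicit false

/-!
# Recognising graphs in which given edge sequences are paths: hardness
-/

namespace Pool.Agent.X130.ER

open Pool.Agent.NPC

/-- monotone formulas -/
abbrev FN : Type := List (ℕ × ℕ × ℕ)

/-- the elements: the centre `4`, the occurrences `8 c + j` for `j < 3`, the clause elements
`8 c + 3`, the variable elements `8 i + 5` -/
def elts (φ : FN) : List ℕ :=
  (List.range (8 * (3 * φ.length) + 8)).filter (fun e => decide (e = 4 ∨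
    (e % 8 ≤ 3 ∧ e / 8 < φ.length) ∨ (e % 8 = 5 ∧ e / 8 < 3 * φ.length)))

/-- the sequences of a clause -/
def cseq (t : (ℕ × ℕ × ℕ) × ℕ) : List (List ℕ) :=
  [[8 * t.2, 4, 8 * t.1.1 + 5], [8 * t.2 + 1, 4, 8 * t.1.2.1 + 5], [8 * t.2 + 2, 4, 8 * t.1.2.2 + 5],
    [4, 8 * t.2, 8 * t.2 + 3], [4, 8 * t.2 + 1, 8 * t.2 + 3], [4, 8 * t.2 + 2, 8 * t.2 + 3]]

/-- the reduction -/
def red (φ : FN) : List ℕ × List (List ℕ) := (elts φ, φ.zipIdx.flatMap cseq)

theorem elts_poly : NPC.Poly elts := by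
  unfold elts
  refine NPC.Poly.filter (p := fun (φ : FN) e => decide (e = 4 ∨
    (e % 8 ≤ 3 ∧ e / 8 < φ.length) ∨ (e % 8 = 5 ∧ e / 8 < 3 * φ.length))) ?_ (by fun_prop)
  exact UPoly.range (UPoly.add (UPoly.mul (UPoly.const 8) (UPoly.mul (UPoly.const 3)
    (UPoly.length NPC.Poly.id))) (UPoly.const 8))

theorem red_poly : NPC.Poly red := by
  unfold red
  refine NPC.Poly.pair elts_poly ?_
  unfold cseq
  fun_prop

variable {φ : FN}

theorem mem_elts {e : ℕ} : e ∈ elts φ ↔ e = 4 ∨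
    (e % 8 ≤ 3 ∧ e / 8 < φ.length) ∨ (e % 8 = 5 ∧ e / 8 < 3 * φ.length) := by
  unfold elts
  rw [List.mem_filter, List.mem_range, decide_eq_true_eq]
  constructor
  · exact fun h => h.2
  · intro h
    exact ⟨by omega, h⟩

theorem mem_seqs {s : List ℕ} : s ∈ φ.zipIdx.flatMap cseq ↔ ∃ c t, φ[c]? = some t ∧
    s ∈ cseq (t, c) := by
  rw [List.mem_flatMap]
  constructor
  · rintro ⟨⟨t, c⟩, h, hs⟩
    exact ⟨c, t, List.mem_zipIdx_iff_getElem?.1 h, hs⟩
  · rintro ⟨c, t, h, hs⟩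
    exact ⟨⟨t, c⟩, List.mem_zipIdx_iff_getElem?.2 h, hs⟩

theorem inst (hφ : SmallN φ) : IsInst (elts φ) (φ.zipIdx.flatMap cseq) := by
  refine ⟨List.nodup_range.filter _, ?_⟩
  intro s hs e he
  obtain ⟨c, t, ht, hs⟩ := mem_seqs.1 hs
  have hc : c < φ.length := by
    by_contra hcon
    rw [List.getElem?_eq_none (not_lt.1 hcon)] at ht
    exact absurd ht (by simp)
  obtain ⟨g1, g2, g3⟩ := hφ t (List.mem_of_getElem? ht)
  rw [mem_elts]
  simp only [cseq, List.mem_cons, List.not_mem_nil, or_false] at hs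
  rcases hs with rfl | rfl | rfl | rfl | rfl | rfl <;>
  · simp only [List.mem_cons, List.not_mem_nil, or_false] at he
    omega

section fwd
variable (φ) (τ : ℕ → Bool)

/-- the end of the centre of a Boolean value -/
def sd (b : Bool) : ℕ := if b then 1 else 0

/-- the value of an occurrence -/
def val (c j : ℕ) : Bool := match φ[c]? with
  | none => false
  | some t => if j = 0 then τ t.1 else if j = 1 then τ t.2.1 else τ t.2.2

/-- the end of the clause element -/
def kk (c j : ℕ) : ℕ :=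
  if val φ τ c 0 = val φ τ c 1 then (if j = 1 then 1 else 0) else (if j = 2 then 1 else 0)

/-- the labels -/
def lab (e : ℕ) : ℕ × ℕ :=
  if e % 8 = 4 then (0, 1) else if e % 8 = 3 then (8 * (e / 8) + 2, 8 * (e / 8) + 3)
  else if e % 8 < 3 then (sd (val φ τ (e / 8) (e % 8)), 8 * (e / 8) + 2 + kk φ τ (e / 8) (e % 8))
  else (sd (!τ (e / 8)), 8 * (e / 8) + 4)

end fwd

theorem sd_lt (b : Bool) : sd b < 2 := by cases b <;> decide
theorem sd_ne {b : Bool} : sd b ≠ sd (!b) := by cases b <;> decide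
theorem sd_inj {b c : Bool} (h : sd b = sd c) : b = c := by
  cases b <;> cases c <;> first | rfl | exact absurd h (by decide)

theorem kk_lt {τ : ℕ → Bool} (c j : ℕ) : kk φ τ c j < 2 := by
  unfold kk
  split_ifs <;> omega

theorem lab4 {τ : ℕ → Bool} : lab φ τ 4 = (0, 1) := rfl

theorem lab3 {τ : ℕ → Bool} (c : ℕ) : lab φ τ (8 * c + 3) = (8 * c + 2, 8 * c + 3) := by
  unfold lab
  have h1 : (8 * c + 3) % 8 = 3 := by omega
  have h2 : (8 * c + 3) / 8 = c := by omega
  rw [h1, h2]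
  rfl

theorem lab0 {τ : ℕ → Bool} (c j : ℕ) (hj : j < 3) :
    lab φ τ (8 * c + j) = (sd (val φ τ c j), 8 * c + 2 + kk φ τ c j) := by
  unfold lab
  have h1 : (8 * c + j) % 8 = j := by omega
  have h2 : (8 * c + j) / 8 = c := by omega
  rw [h1, h2, if_neg (by omega), if_neg (by omega), if_pos hj]

theorem lab5 {τ : ℕ → Bool} (c : ℕ) : lab φ τ (8 * c + 5) = (sd (!τ c), 8 * c + 4) := by
  unfold lab
  have h1 : (8 * c + 5) % 8 = 5 := by omega
  have h2 : (8 * c + 5) / 8 = c := by omega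
  rw [h1, h2]
  rfl

theorem kk_ne {τ : ℕ → Bool} {c : ℕ} (h : ¬ (val φ τ c 0 = val φ τ c 1 ∧ val φ τ c 1 = val φ τ c 2))
    {i j : ℕ} (hi : i < 3) (hj : j < 3) (hij : i ≠ j) :
    val φ τ c i ≠ val φ τ c j ∨ kk φ τ c i ≠ kk φ τ c j := by
  unfold kk
  have hi' : i = 0 ∨ i = 1 ∨ i = 2 := by omega
  have hj' : j = 0 ∨ j = 1 ∨ j = 2 := by omega
  rcases hi' with rfl | rfl | rfl <;> rcases hj' with rfl | rfl | rfl <;>
    cases h0 : val φ τ c 0 <;> cases h1 : val φ τ c 1 <;> cases h2 : val φ τ c 2 <;>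
    simp_all

theorem elts_cases {e : ℕ} (h : e ∈ elts φ) : e = 4 ∨ (∃ c < φ.length, e = 8 * c + 3) ∨
    (∃ c < φ.length, ∃ j < 3, e = 8 * c + j) ∨ (∃ i < 3 * φ.length, e = 8 * i + 5) := by
  rcases mem_elts.1 h with h | h | h
  · exact Or.inl h
  · by_cases h3 : e % 8 = 3
    · exact Or.inr (Or.inl ⟨e / 8, h.2, by omega⟩)
    · exact Or.inr (Or.inr (Or.inl ⟨e / 8, h.2, e % 8, by omega, by omega⟩))
  · exact Or.inr (Or.inr (Or.inr ⟨e / 8, h.2, by omega⟩))

theorem val_eq {τ : ℕ → Bool} {c : ℕ} {t : ℕ × ℕ × ℕ} (h : φ[c]? = some t) :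
    val φ τ c 0 = τ t.1 ∧ val φ τ c 1 = τ t.2.1 ∧ val φ τ c 2 = τ t.2.2 := by
  unfold val
  rw [h]
  exact ⟨rfl, rfl, rfl⟩

theorem path1 {τ : ℕ → Bool} {c j x : ℕ} (hc : c < φ.length) (hj : j < 3) (hx : x < 3 * φ.length)
    (h : val φ τ c j = τ x) :
    ∃ e f g, [8 * c + j, 4, 8 * x + 5] = [e, f, g] ∧ ∃ a b c d : ℕ, a < 8 * (3 * φ.length) + 8 ∧
      b < 8 * (3 * φ.length) + 8 ∧ c < 8 * (3 * φ.length) + 8 ∧ d < 8 * (3 * φ.length) + 8 ∧
      a ≠ b ∧ a ≠ c ∧ a ≠ d ∧ b ≠ c ∧ b ≠ d ∧ c ≠ d ∧ (lab φ τ e = (a, b) ∨ lab φ τ e = (b, a)) ∧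
      (lab φ τ f = (b, c) ∨ lab φ τ f = (c, b)) ∧ (lab φ τ g = (c, d) ∨ lab φ τ g = (d, c)) := by
  have h1 := kk_lt (φ := φ) (τ := τ) c j
  have h2 := sd_lt (τ x)
  have h3 := sd_lt (!τ x)
  have h4 := sd_ne (b := τ x)
  refine ⟨_, _, _, rfl, 8 * c + 2 + kk φ τ c j, sd (τ x), sd (!τ x), 8 * x + 4, by omega, by omega,
    by omega, by omega, by omega, by omega, by omega, h4, by omega, by omega, ?_, ?_, ?_⟩
  · rw [lab0 c j hj, h]
    exact Or.inr rfl
  · rw [lab4]
    cases τ x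
    · exact Or.inl rfl
    · exact Or.inr rfl
  · rw [lab5]
    exact Or.inl rfl

theorem path2 {τ : ℕ → Bool} {c j : ℕ} (hc : c < φ.length) (hj : j < 3) :
    ∃ e f g, [4, 8 * c + j, 8 * c + 3] = [e, f, g] ∧ ∃ a b c d : ℕ, a < 8 * (3 * φ.length) + 8 ∧
      b < 8 * (3 * φ.length) + 8 ∧ c < 8 * (3 * φ.length) + 8 ∧ d < 8 * (3 * φ.length) + 8 ∧
      a ≠ b ∧ a ≠ c ∧ a ≠ d ∧ b ≠ c ∧ b ≠ d ∧ c ≠ d ∧ (lab φ τ e = (a, b) ∨ lab φ τ e = (b, a)) ∧
      (lab φ τ f = (b, c) ∨ lab φ τ f = (c, b)) ∧ (lab φ τ g = (c, d) ∨ lab φ τ g = (d, c)) := by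
  have h1 := kk_lt (φ := φ) (τ := τ) c j
  have h2 := sd_lt (val φ τ c j)
  have h3 := sd_lt (!val φ τ c j)
  have h4 := (sd_ne (b := val φ τ c j)).symm
  refine ⟨_, _, _, rfl, sd (!val φ τ c j), sd (val φ τ c j), 8 * c + 2 + kk φ τ c j,
    8 * c + 2 + (1 - kk φ τ c j), by omega, by omega,
    by omega, by omega, h4, by omega, by omega, by omega, by omega, by omega, ?_, ?_, ?_⟩
  · rw [lab4]
    cases val φ τ c j
    · exact Or.inr rfl
    · exact Or.inl rfl
  · rw [lab0 c j hj]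
    exact Or.inl rfl
  · rw [lab3]
    rcases (show kk φ τ c j = 0 ∨ kk φ τ c j = 1 by omega) with h | h
    · rw [h]; exact Or.inl rfl
    · rw [h]; exact Or.inr rfl

theorem fwd (hφ : SmallN φ) (h : NAEN φ) : EdgePaths (red φ) := by
  obtain ⟨τ, hτ⟩ := h
  have hnae : ∀ c < φ.length, ¬ (val φ τ c 0 = val φ τ c 1 ∧ val φ τ c 1 = val φ τ c 2) := by
    intro c hc
    have ht : φ[c]? = some φ[c] := List.getElem?_eq_getElem hc
    obtain ⟨h0, h1, h2⟩ := val_eq (τ := τ) ht
    rw [h0, h1, h2]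
    exact hτ _ (List.getElem_mem hc)
  refine ⟨inst hφ, realisable_of (8 * (3 * φ.length) + 8) (lab φ τ) ?_ ?_ ?_ (by omega)⟩
  · intro e he
    rcases elts_cases he with rfl | ⟨c, hc, rfl⟩ | ⟨c, hc, j, hj, rfl⟩ | ⟨i, hi, rfl⟩
    · rw [lab4]
      exact ⟨by simp, by simp only; omega, by simp⟩
    · rw [lab3]
      simp only
      omega
    · rw [lab0 c j hj]
      have h1 := kk_lt (φ := φ) (τ := τ) c j
      have h2 := sd_lt (val φ τ c j)
      simp only
      omega
    · rw [lab5]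
      have h2 := sd_lt (!τ i)
      simp only
      omega
  · intro e he e' he' h
    rcases elts_cases he with rfl | ⟨c, hc, rfl⟩ | ⟨c, hc, j, hj, rfl⟩ | ⟨i, hi, rfl⟩ <;>
    rcases elts_cases he' with rfl | ⟨c', hc', rfl⟩ | ⟨c', hc', j', hj', rfl⟩ | ⟨i', hi', rfl⟩
    · rfl
    · rw [lab4, lab3] at h
      simp only at h
      omega
    · rw [lab4, lab0 c' j' hj'] at h
      simp only at h
      omega
    · rw [lab4, lab5] at h
      simp only at h
      omega
    · rw [lab4, lab3] at h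
      simp only at h
      omega
    · rw [lab3, lab3] at h
      simp only at h
      omega
    · rw [lab3, lab0 c' j' hj'] at h
      have h2 := sd_lt (val φ τ c' j')
      simp only at h
      omega
    · rw [lab3, lab5] at h
      have h2 := sd_lt (!τ i')
      simp only at h
      omega
    · rw [lab4, lab0 c j hj] at h
      simp only at h
      omega
    · rw [lab3, lab0 c j hj] at h
      have h2 := sd_lt (val φ τ c j)
      simp only at h
      omega
    · rw [lab0 c j hj, lab0 c' j' hj'] at h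
      have h1 := kk_lt (φ := φ) (τ := τ) c j
      have h2 := sd_lt (val φ τ c j)
      have h1' := kk_lt (φ := φ) (τ := τ) c' j'
      have h2' := sd_lt (val φ τ c' j')
      simp only at h
      have hcc : c = c' := by omega
      subst hcc
      by_contra hne
      have hjj : j ≠ j' := fun hh => hne (by rw [hh])
      have h5 : sd (val φ τ c j) = sd (val φ τ c j') ∧ kk φ τ c j = kk φ τ c j' := by omega
      rcases kk_ne (hnae c hc) hj hj' hjj with h6 | h6
      · exact h6 (sd_inj h5.1)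
      · exact h6 h5.2
    · rw [lab0 c j hj, lab5] at h
      have h1 := kk_lt (φ := φ) (τ := τ) c j
      have h2 := sd_lt (val φ τ c j)
      have h3 := sd_lt (!τ i')
      simp only at h
      omega
    · rw [lab4, lab5] at h
      simp only at h
      omega
    · rw [lab3, lab5] at h
      have h2 := sd_lt (!τ i)
      simp only at h
      omega
    · rw [lab0 c' j' hj', lab5] at h
      have h1 := kk_lt (φ := φ) (τ := τ) c' j'
      have h2 := sd_lt (val φ τ c' j')
      have h3 := sd_lt (!τ i)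
      simp only at h
      omega
    · rw [lab5, lab5] at h
      have h2 := sd_lt (!τ i)
      have h3 := sd_lt (!τ i')
      simp only at h
      omega
  · intro s hs
    obtain ⟨c, t, ht, hs⟩ := mem_seqs.1 hs
    have hc : c < φ.length := by
      by_contra hcon
      rw [List.getElem?_eq_none (not_lt.1 hcon)] at ht
      exact absurd ht (by simp)
    obtain ⟨g1, g2, g3⟩ := hφ t (List.mem_of_getElem? ht)
    obtain ⟨v0, v1, v2⟩ := val_eq (τ := τ) ht
    simp only [cseq, List.mem_cons, List.not_mem_nil, or_false] at hs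
    rcases hs with rfl | rfl | rfl | rfl | rfl | rfl
    · exact path1 (j := 0) hc (by omega) g1 v0
    · exact path1 (j := 1) hc (by omega) g2 v1
    · exact path1 (j := 2) hc (by omega) g3 v2
    · exact path2 (j := 0) hc (by omega)
    · exact path2 (j := 1) hc (by omega)
    · exact path2 (j := 2) hc (by omega)

/-- two members of `{y, z}` out of three agree -/
theorem pigeon {V : Type} {y z b0 b1 b2 : V} (h0 : b0 = y ∨ b0 = z) (h1 : b1 = y ∨ b1 = z)
    (h2 : b2 = y ∨ b2 = z) : b0 = b1 ∨ b1 = b2 ∨ b0 = b2 := by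
  rcases h0 with rfl | rfl <;> rcases h1 with rfl | rfl <;> rcases h2 with rfl | rfl <;> simp

theorem bwd (h : EdgePaths (red φ)) : NAEN φ := by
  classical
  obtain ⟨-, V, -, G, f, hbij, hpath⟩ := h
  simp only [red] at hbij hpath
  have hinj := hbij.injOn
  obtain ⟨u, v, huv⟩ : ∃ u v, f 4 = s(u, v) := by
    induction f 4 using Sym2.ind with
    | h a b => exact ⟨a, b, rfl⟩
  -- an occurrence and its variable are at different ends
  have key1 : ∀ c j x, IsPathSeq f [8 * c + j, 4, 8 * x + 5] →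
      (u ∈ f (8 * c + j) ↔ ¬ u ∈ f (8 * x + 5)) := by
    intro c j x hp
    obtain ⟨p0, p1, p2, p3, hn, e1, e2, e3⟩ := isPathSeq3.1 hp
    rw [e1, e3, Sym2.mem_iff, Sym2.mem_iff]
    simp only [List.nodup_cons, List.mem_cons, List.not_mem_nil, or_false, not_false_eq_true,
      List.nodup_nil, and_true] at hn
    rw [huv, Sym2.eq_iff] at e2
    rcases e2 with ⟨rfl, rfl⟩ | ⟨rfl, rfl⟩ <;> tauto
  have key2 : ∀ c j, IsPathSeq f [4, 8 * c + j, 8 * c + 3] → ∀ y z, f (8 * c + 3) = s(y, z) →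
      ∃ a b, f (8 * c + j) = s(a, b) ∧ (a = u ∨ a = v) ∧ (b = y ∨ b = z) ∧ b ≠ u := by
    intro c j hp y z hyz
    obtain ⟨p0, p1, p2, p3, hn, e1, e2, e3⟩ := isPathSeq3.1 hp
    simp only [List.nodup_cons, List.mem_cons, List.not_mem_nil, or_false, not_false_eq_true,
      List.nodup_nil, and_true] at hn
    rw [hyz, Sym2.eq_iff] at e3
    rw [huv, Sym2.eq_iff] at e1
    refine ⟨p1, p2, e2, ?_, ?_, ?_⟩
    · tauto
    · tauto
    · rintro rfl
      tauto
  refine ⟨fun x => decide (u ∈ f (8 * x + 5)), ?_⟩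
  intro t ht hall
  obtain ⟨c, hct⟩ := List.getElem?_of_mem ht
  have hc : c < φ.length := by
    by_contra hcon
    rw [List.getElem?_eq_none (not_lt.1 hcon)] at hct
    exact absurd hct (by simp)
  have hs : ∀ s ∈ cseq (t, c), IsPathSeq f s := fun s hs => hpath s (mem_seqs.2 ⟨c, t, hct, hs⟩)
  simp only [decide_eq_decide] at hall
  obtain ⟨y, z, hyz⟩ : ∃ y z, f (8 * c + 3) = s(y, z) := by
    induction f (8 * c + 3) using Sym2.ind with
    | h a b => exact ⟨a, b, rfl⟩
  have k0 := key1 c 0 t.1 (hs _ (by simp [cseq]))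
  have k1 := key1 c 1 t.2.1 (hs _ (by simp [cseq]))
  have k2 := key1 c 2 t.2.2 (hs _ (by simp [cseq]))
  obtain ⟨a0, b0, e0, f0, g0, n0⟩ := key2 c 0 (hs _ (by simp [cseq])) y z hyz
  obtain ⟨a1, b1, e1, f1, g1, n1⟩ := key2 c 1 (hs _ (by simp [cseq])) y z hyz
  obtain ⟨a2, b2, e2, f2, g2, n2⟩ := key2 c 2 (hs _ (by simp [cseq])) y z hyz
  rw [e0, Sym2.mem_iff] at k0
  rw [e1, Sym2.mem_iff] at k1
  rw [e2, Sym2.mem_iff] at k2
  have hm : ∀ j < 3, 8 * c + j ∈ elts φ := fun j hj => mem_elts.2 (by omega)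
  have ha : a0 = a1 ∧ a1 = a2 := by
    have l0 : u = a0 ↔ u = a1 := by
      constructor
      · intro h
        have := (hall.1.not.1 (k0.1 (Or.inl h)))
        rcases k1.2 this with h | h
        · exact h
        · exact absurd h.symm n1
      · intro h
        have := (hall.1.not.2 (k1.1 (Or.inl h)))
        rcases k0.2 this with h | h
        · exact h
        · exact absurd h.symm n0
    have l1 : u = a1 ↔ u = a2 := by
      constructor
      · intro h
        have := (hall.2.not.1 (k1.1 (Or.inl h)))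
        rcases k2.2 this with h | h
        · exact h
        · exact absurd h.symm n2
      · intro h
        have := (hall.2.not.2 (k2.1 (Or.inl h)))
        rcases k1.2 this with h | h
        · exact h
        · exact absurd h.symm n1
    by_cases hu : u = a0
    · have hu1 := l0.1 hu
      have hu2 := l1.1 hu1
      exact ⟨hu.symm.trans hu1, hu1.symm.trans hu2⟩
    · have hu1 := l0.not.1 hu
      have hu2 := l1.not.1 hu1
      have i0 : a0 = v := f0.resolve_left (fun h => hu h.symm)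
      have i1 : a1 = v := f1.resolve_left (fun h => hu1 h.symm)
      have i2 : a2 = v := f2.resolve_left (fun h => hu2 h.symm)
      exact ⟨i0.trans i1.symm, i1.trans i2.symm⟩
  rcases pigeon g0 g1 g2 with h | h | h
  · have := hinj (hm 0 (by omega)) (hm 1 (by omega)) (by rw [e0, e1, ha.1, h])
    omega
  · have := hinj (hm 1 (by omega)) (hm 2 (by omega)) (by rw [e1, e2, ha.2, h])
    omega
  · have := hinj (hm 0 (by omega)) (hm 2 (by omega)) (by rw [e0, e2, ha.1, ha.2, h])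
    omega

/-- The problem is NP-hard. -/
theorem hard : NPHardP EdgePaths := by
  refine (hardPr_NAEN.trans (Pr' := fun _ => True) red_poly (fun _ _ => trivial)
    ?_).toHardI.toNPHardP
  intro φ hφ
  exact ⟨fwd hφ, bwd⟩

end Pool.Agent.X130.ER
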